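import Mathlib
import Pool.Agent.TH84.SF.Spec2

set_option autoImplicit false

/-!
# Project SF, piece (T2): strong spatial mixing gives models on almost exact actions
-/

namespace Pool.Agent.T9h91.SF

open Pool.Agent.TH84.SF

theorem sT2 : S_T2 := by
  intro G A _ X hinv hmix hne W
  classical
  obtain ⟨Δ, hΔ⟩ := hmix
  obtain ⟨x0, hx0⟩ := hne
  obtain ⟨D', hD'⟩ : ∃ D' : Finset G, D' = insert 1 Δ := ⟨_, rfl⟩
  obtain ⟨R, hR⟩ : ∃ R : Finset G, R = W ∪ D' := ⟨_, rfl⟩
  have hDR : ∀ d ∈ D', d ∈ R := fun d hd => by rw [hR]; exact Finset.mem_union_right _ hd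
  have hWR : ∀ w ∈ W, w ∈ R := fun d hd => by rw [hR]; exact Finset.mem_union_left _ hd
  refine ⟨R, fun V _ s U hex => ?_⟩
  have key : ∀ D : Finset V, (∀ v ∈ D, v ∉ U) → ∃ m : V → A, ∀ u, u ∉ U →
      ∃ x ∈ X, ∀ r ∈ R, s r u ∈ D → m (s r u) = x r := by
    intro D
    induction D using Finset.induction_on with
    | empty =>
      intro _
      exact ⟨fun _ => x0 1, fun u _ => ⟨x0, hx0, fun r _ h => absurd h (by simp)⟩⟩
    | insert v D hvD ih =>
      intro hD
      obtain ⟨m, hm⟩ := ih fun w hw => hD w (Finset.mem_insert_of_mem hw)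
      have hvU := hD v (Finset.mem_insert_self _ _)
      obtain ⟨xv, hxv, hxvm⟩ := hm v hvU
      refine ⟨Function.update m v (xv 1), fun u hu => ?_⟩
      obtain ⟨xu, hxu, hxum⟩ := hm u hu
      by_cases hr : ∃ r0 ∈ R, s r0 u = v
      · obtain ⟨r0, hr0, hr0v⟩ := hr
        have hx1 := hinv r0 xv hxv
        have hsep : ∀ w ∈ ({r0} : Finset G), ∀ d ∈ Δ,
            w * d ∉ R.filter fun r => s r u ∈ D ∧ r0⁻¹ * r ∉ D' := by
          intro w hw d hd hmem
          rw [Finset.mem_singleton] at hw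
          subst hw
          rw [Finset.mem_filter] at hmem
          apply hmem.2.2
          rw [inv_mul_cancel_left, hD']
          exact Finset.mem_insert_of_mem hd
        have hag : ∀ r ∈ R.filter (fun r => s r u ∈ D ∧ r0⁻¹ * r ∈ D'),
            (fun h => xv (r0⁻¹ * h)) r = xu r := by
          intro r hr
          rw [Finset.mem_filter] at hr
          obtain ⟨hrR, hrD, hrD'⟩ := hr
          show xv (r0⁻¹ * r) = xu r
          have h1 : s (r0⁻¹ * r) v = s r u := by
            rw [← hr0v, (hex u hu).2.1 r0 hr0 _ (hDR _ hrD'), mul_inv_cancel_left]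
          rw [← hxvm _ (hDR _ hrD') (by rw [h1]; exact hrD), h1, hxum r hrR hrD]
        obtain ⟨z, hz, hz1, hz2, hz3⟩ := hΔ {r0} _ _ hsep _ hx1 xu hxu hag
        refine ⟨z, hz, fun r hrR hrD => ?_⟩
        rw [Finset.mem_insert] at hrD
        rcases hrD with hrv | hrD
        · have h1 : r = r0 := (hex u hu).2.2 r hrR r0 hr0 (by rw [hrv, hr0v])
          rw [hrv, Function.update_self, h1, hz1 r0 (Finset.mem_singleton_self _)]
          show xv 1 = xv (r0⁻¹ * r0)
          rw [inv_mul_cancel]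
        · have h1 : s r u ≠ v := fun h => hvD (h ▸ hrD)
          rw [Function.update_of_ne h1, hxum r hrR hrD]
          by_cases h2 : r0⁻¹ * r ∈ D'
          · have h3 : r ∈ R.filter (fun r => s r u ∈ D ∧ r0⁻¹ * r ∈ D') :=
              Finset.mem_filter.2 ⟨hrR, hrD, h2⟩
            rw [hz3 r h3]
            exact (hag r h3).symm
          · exact (hz2 r (Finset.mem_filter.2 ⟨hrR, hrD, h2⟩)).symm
      · refine ⟨xu, hxu, fun r hrR hrD => ?_⟩
        have h1 : s r u ≠ v := fun h => hr ⟨r, hrR, h⟩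
        rw [Finset.mem_insert] at hrD
        rw [Function.update_of_ne h1]
        exact hxum r hrR (hrD.resolve_left h1)
  obtain ⟨m, hm⟩ := key Uᶜ (fun v hv => Finset.mem_compl.1 hv)
  refine ⟨m, fun v hv hw => ?_⟩
  obtain ⟨x, hx, hxm⟩ := hm v hv
  exact ⟨x, hx, fun w hwW => hxm w (hWR w hwW) (Finset.mem_compl.2 (hw w hwW))⟩

end Pool.Agent.T9h91.SF
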