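import Mathlib
import Pool.Agent.TH84.SF.Spec

set_option autoImplicit false

/-!
# Project SF, piece (C): insertions into labellings
-/

namespace Pool.Agent.T9h91.SF

open Pool.Agent.TH84.SF

open Classical in
/-- The labelling `m` with the insertions at `T`. -/
noncomputable def ins {G A V : Type} [Group G] (s : G → Equiv.Perm V) (E : Finset G)
    (f : (G → A) → G → A) (T : Finset V) (m : V → A) : V → A := fun u =>
  if h : ∃ p : V × G, p.1 ∈ T ∧ p.2 ∈ E ∧ s p.2 p.1 = u then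
    f (fun w => m (s w h.choose.1)) h.choose.2
  else m u

section

variable {G A V : Type} [Group G] {s : G → Equiv.Perm V} {E E' F : Finset G}
  {f : (G → A) → G → A} {U S T : Finset V}

theorem ins_at (hEE : E ⊆ E') (hEF : E' ⊆ F) (hex : ∀ v, v ∉ U → Ex s F v)
    (hSU : ∀ v ∈ S, v ∉ U)
    (hdis : ∀ v ∈ S, ∀ v' ∈ S, ∀ e ∈ E', ∀ e' ∈ E', s e v = s e' v' → v = v') (hT : T ⊆ S)
    (m : V → A) {v : V} (hv : v ∈ T) {e : G} (he : e ∈ E) :
    ins s E f T m (s e v) = f (fun w => m (s w v)) e := by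
  have h : ∃ p : V × G, p.1 ∈ T ∧ p.2 ∈ E ∧ s p.2 p.1 = s e v := ⟨(v, e), hv, he, rfl⟩
  have hp : h.choose = (v, e) := by
    obtain ⟨h1, h2, h3⟩ := h.choose_spec
    have h4 : h.choose.1 = v :=
      hdis _ (hT h1) _ (hT hv) _ (hEE h2) _ (hEE he) h3
    have h5 : h.choose.2 = e := by
      rw [h4] at h3
      exact (hex v (hSU v (hT hv))).2.2 _ (hEF (hEE h2)) _ (hEF (hEE he)) h3
    exact Prod.ext h4 h5
  unfold ins
  rw [dif_pos h, hp]

theorem ins_off (m : V → A) {u : V} (h : ∀ v ∈ T, ∀ e ∈ E, s e v ≠ u) :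
    ins s E f T m u = m u := by
  unfold ins
  rw [dif_neg]
  rintro ⟨p, h1, h2, h3⟩
  exact h _ h1 _ h2 h3

/-- Insertions at `T` give labellings which look like `X` on `W`. -/
theorem ins_mem (hI : S_I) {X : Set (G → A)} {xs : G → A} {B W Wp : Finset G}
    (hinv : ∀ g : G, ∀ x ∈ X, tr g x ∈ X) (hfill : Fill X xs B E E' f)
    (hWWp : W ⊆ Wp) (hWp : ∀ w ∈ W, ∀ e ∈ E, ∀ e' ∈ E', w * e⁻¹ * e' ∈ Wp)
    (hWF : W ⊆ F) (hEF : E' ⊆ F) (hEi : ∀ e ∈ E, e⁻¹ ∈ F) (hWE : ∀ w ∈ W, ∀ e ∈ E, w * e⁻¹ ∈ F)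
    (hex : ∀ v, v ∉ U → Ex s F v) (hSU : ∀ v ∈ S, v ∉ U)
    (hdis : ∀ v ∈ S, ∀ v' ∈ S, ∀ e ∈ E', ∀ e' ∈ E', s e v = s e' v' → v = v') (hT : T ⊆ S)
    {m : V → A} (hm : m ∈ AdmSet X s Wp U) : ins s E f T m ∈ AdmSet X s W U := by
  classical
  intro v hv
  obtain ⟨x, hx, hxm⟩ := hm v hv
  have hEx := hex v hv
  let J : Finset G := ((W ×ˢ E).image fun p => p.1 * p.2⁻¹).filter fun g => s g v ∈ T
  have hJF : ∀ g ∈ J, g ∈ F := by
    intro g hg
    simp only [J, Finset.mem_filter, Finset.mem_image, Finset.mem_product, Prod.exists] at hg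
    obtain ⟨⟨w, e, ⟨hw, he⟩, rfl⟩, -⟩ := hg
    exact hWE w hw e he
  have hJT : ∀ g ∈ J, s g v ∈ T := fun g hg => (Finset.mem_filter.1 hg).2
  have hJdis : ∀ g ∈ J, ∀ g' ∈ J, ∀ e ∈ E', ∀ e' ∈ E', g * e = g' * e' → g = g' := by
    intro g hg g' hg' e he e' he' h
    have h1 : s e (s g v) = s e' (s g' v) := by
      rw [hEx.2.1 g (hJF g hg) e (hEF he), hEx.2.1 g' (hJF g' hg') e' (hEF he'), h]
    have h2 := hdis _ (hT (hJT g hg)) _ (hT (hJT g' hg')) e he e' he' h1
    exact hEx.2.2 g (hJF g hg) g' (hJF g' hg') h2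
  obtain ⟨x', hx', h1, h2⟩ := hI G A X xs B E E' f hinv hfill J hJdis x hx
  refine ⟨x', hx', fun w hw => ?_⟩
  by_cases hc : ∃ v' ∈ T, ∃ e ∈ E, s e v' = s w v
  · obtain ⟨v', hv', e, he, hev⟩ := hc
    have hv'S := hT hv'
    have hEx' := hex v' (hSU v' hv'S)
    have heF : e ∈ F := hEF (hfill.subE he)
    have hg1 : s (w * e⁻¹) v = v' := by
      rw [← hEx.2.1 w (hWF hw) e⁻¹ (hEi e he), ← hev, hEx'.2.1 e heF e⁻¹ (hEi e he),
        mul_inv_cancel, hEx'.1]
    have hgJ : w * e⁻¹ ∈ J := by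
      simp only [J, Finset.mem_filter, Finset.mem_image, Finset.mem_product, Prod.exists]
      refine ⟨⟨w, e, ⟨hw, he⟩, rfl⟩, ?_⟩
      rw [hg1]
      exact hv'
    rw [← hev, ins_at hfill.subE hEF hex hSU hdis hT m hv' he]
    have h3 := h1 _ hgJ e he
    rw [inv_mul_cancel_right] at h3
    rw [h3]
    refine hfill.loc _ _ (fun h hh => ?_) e he
    show m (s h v') = x (w * e⁻¹ * h)
    rw [← hg1, hEx.2.1 _ (hJF _ hgJ) h (hEF hh)]
    exact hxm _ (hWp w hw e he h hh)
  · push Not at hc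
    rw [ins_off m (fun v' hv' e he => hc v' hv' e he), hxm w (hWWp hw)]
    refine (h2 w fun g hg hge => ?_).symm
    apply hc (s g v) (hJT g hg) (g⁻¹ * w) hge
    rw [hEx.2.1 g (hJF g hg) _ (hEF (hfill.subE hge)), mul_inv_cancel_left]

/-- The places of the insertions can be read off. -/
theorem ins_read {X : Set (G → A)} {xs : G → A} {B Wp : Finset G}
    (hfill : Fill X xs B E E' f) (hEF : E' ⊆ F)
    (hex : ∀ v, v ∉ U → Ex s F v) (hSU : ∀ v ∈ S, v ∉ U)
    (hdis : ∀ v ∈ S, ∀ v' ∈ S, ∀ e ∈ E', ∀ e' ∈ E', s e v = s e' v' → v = v') (hT : T ⊆ S)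
    {m : V → A} (hm : m ∈ ZSet X s Wp U B xs) {v : V} (hv : v ∈ S) :
    v ∈ T ↔ ∀ b ∈ B, ins s E f T m (s b v) = xs b := by
  constructor
  · intro h b hb
    rw [ins_at hfill.subE hEF hex hSU hdis hT m h (hfill.subB hb)]
    exact hfill.shows _ b hb
  · intro h
    by_contra hvT
    obtain ⟨b, hb, hne⟩ := hm.2 v (hSU v hv)
    apply hne
    rw [← h b hb, ins_off]
    intro v' hv' e he heq
    apply hvT
    have := hdis v' (hT hv') v hv e (hfill.subE he) b (hfill.subE (hfill.subB hb)) heq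
    rw [← this]
    exact hv'

end

theorem sC : S_I → S_C := by
  intro hI G A V _ _ _ X xs B E E' f hinv hfill s W Wp F U S hWWp hWp hWF hEF hEi hWE hex hSU hdis
  classical
  -- the set of the insertions of a choice
  let TT : (S → Option (E → A)) → Finset V := fun c => S.attach.filter (fun v => c v = none) |>.map
    (Function.Embedding.subtype _)
  have hTT : ∀ c, TT c ⊆ S := by
    intro c v hv
    simp only [TT, Finset.mem_map, Finset.mem_filter] at hv
    obtain ⟨a, -, rfl⟩ := hv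
    exact a.2
  have hTT' : ∀ c (v : S), (v : V) ∈ TT c ↔ c v = none := by
    intro c v
    simp only [TT, Finset.mem_map, Finset.mem_filter, Finset.mem_attach, true_and]
    constructor
    · rintro ⟨a, h1, h2⟩
      have : a = v := Subtype.ext h2
      rw [← this]
      exact h1
    · intro h
      exact ⟨v, h, rfl⟩
  let Φ : (ZSet X s Wp U B xs) × (S → Option (E → A)) → (AdmSet X s W U) × (S → (E → A)) :=
    fun p => (⟨ins s E f (TT p.2) p.1.1, ins_mem hI hinv hfill hWWp hWp hWF hEF hEi hWE hex hSU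
      hdis (hTT p.2) p.1.2.1⟩, fun v => (p.2 v).getD fun e => p.1.1 (s e v))
  have hΦ : Function.Injective Φ := by
    rintro ⟨⟨m, hm⟩, c⟩ ⟨⟨m', hm'⟩, c'⟩ h
    simp only [Φ, Prod.mk.injEq, Subtype.mk.injEq] at h
    obtain ⟨h1, h2⟩ := h
    have hcc : ∀ v : S, c v = none ↔ c' v = none := by
      intro v
      rw [← hTT' c v, ← hTT' c' v,
        ins_read hfill hEF hex hSU hdis (hTT c) hm v.2,
        ins_read hfill hEF hex hSU hdis (hTT c') hm' v.2, h1]
    have hT : TT c = TT c' := by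
      ext v
      constructor
      · intro hv
        exact (hTT' c' ⟨v, hTT c hv⟩).2 ((hcc _).1 ((hTT' c ⟨v, hTT c hv⟩).1 hv))
      · intro hv
        exact (hTT' c ⟨v, hTT c' hv⟩).2 ((hcc _).2 ((hTT' c' ⟨v, hTT c' hv⟩).1 hv))
    have hcc' : c = c' := by
      funext v
      have h3 := congrFun h2 v
      rcases hcv : c v with _ | y
      · exact ((hcc v).1 hcv).symm
      · rcases hcv' : c' v with _ | y'
        · rw [(hcc v).2 hcv'] at hcv
          exact absurd hcv (by simp)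
        · simp only [hcv, hcv', Option.getD_some] at h3
          rw [h3]
    have hmm : m = m' := by
      funext u
      by_cases hc : ∃ v ∈ TT c, ∃ e ∈ E, s e v = u
      · obtain ⟨v, hv, e, he, rfl⟩ := hc
        have h3 := congrFun (congrFun h2 ⟨v, hTT c hv⟩) ⟨e, he⟩
        have h4 : c ⟨v, hTT c hv⟩ = none := (hTT' c ⟨v, hTT c hv⟩).1 hv
        have h5 := (hcc _).1 h4
        simp only [h4, h5, Option.getD_none] at h3
        exact h3
      · push Not at hc
        have h3 := congrFun h1 u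
        rw [ins_off m (fun v hv e he => hc v hv e he),
          ins_off m' (fun v hv e he => hc v (hT ▸ hv) e he)] at h3
        exact h3
    subst hcc' hmm
    rfl
  have hcard := Nat.card_le_card_of_injective Φ hΦ
  rw [Nat.card_prod, Nat.card_prod, Nat.card_fun, Nat.card_fun, Finite.card_option, Nat.card_fun,
    Nat.card_eq_fintype_card (α := S), Nat.card_eq_fintype_card (α := E), Fintype.card_coe,
    Fintype.card_coe, Nat.card_coe_set_eq, Nat.card_coe_set_eq] at hcard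
  rw [mul_comm ((Nat.card A ^ E.card) ^ S.card)]
  exact hcard

end Pool.Agent.T9h91.SF
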