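import Mathlib
import Pool.Agent.TH84.SF.Spec

set_option autoImplicit false

/-!
# Project SF, piece (P): a maximal packing
-/

namespace Pool.Agent.T9h91.SF

open Pool.Agent.TH84.SF

theorem sP : S_P := by
  intro G V _ _ s E' U hE
  classical
  let good : Finset V → Prop := fun S => (∀ v ∈ S, v ∉ U) ∧
    (∀ v ∈ S, ∀ v' ∈ S, ∀ e ∈ E', ∀ e' ∈ E', s e v = s e' v' → v = v')
  have hne : ((Finset.univ : Finset (Finset V)).filter good).Nonempty := by
    refine ⟨∅, ?_⟩
    simp [good]
  obtain ⟨S, hS, hmax⟩ := Finset.exists_max_image _ Finset.card hne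
  rw [Finset.mem_filter] at hS
  refine ⟨S, hS.2.1, hS.2.2, ?_⟩
  obtain ⟨e0, he0⟩ := hE
  have hcov : Uᶜ ⊆ ((E' ×ˢ E') ×ˢ S).image fun p => (s p.1.1).symm (s p.1.2 p.2) := by
    intro w hw
    rw [Finset.mem_compl] at hw
    rw [Finset.mem_image]
    by_cases hwS : w ∈ S
    · exact ⟨((e0, e0), w), by simp [he0, hwS], by simp⟩
    · by_contra hcon
      have key : ∀ e ∈ E', ∀ e' ∈ E', ∀ v' ∈ S, s e w ≠ s e' v' := by
        intro e he e' he' v' hv' h
        apply hcon
        refine ⟨((e, e'), v'), by simp [he, he', hv'], ?_⟩
        show (s e).symm (s e' v') = w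
        rw [← h]
        simp
      have hgood : good (insert w S) := by
        constructor
        · intro v hv
          rw [Finset.mem_insert] at hv
          rcases hv with rfl | hv
          · exact hw
          · exact hS.2.1 v hv
        · intro v hv v' hv' e he e' he' h
          rw [Finset.mem_insert] at hv hv'
          rcases hv with rfl | hv
          · rcases hv' with rfl | hv'
            · rfl
            · exact absurd h (key e he e' he' v' hv')
          · rcases hv' with rfl | hv'
            · exact absurd h.symm (key e' he' e he v hv)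
            · exact hS.2.2 v hv v' hv' e he e' he' h
      have h1 := hmax (insert w S) (by rw [Finset.mem_filter]; exact ⟨Finset.mem_univ _, hgood⟩)
      rw [Finset.card_insert_of_notMem hwS] at h1
      omega
  have h2 := (Finset.card_le_card hcov).trans Finset.card_image_le
  rw [Finset.card_product, Finset.card_product, Finset.card_compl] at h2
  have h3 : E'.card ^ 2 * S.card = E'.card * E'.card * S.card := by ring
  rw [h3]
  omega

end Pool.Agent.T9h91.SF
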